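import Pool.Agent.H37.IS.Stm3

set_option autoImplicit false

namespace Pool.Agent.H87.IS

open H37.IS

noncomputable def rr (M j k : ℕ) : ℝ := ((M - (k + 1)).choose (j - 1) : ℝ) / (M.choose j : ℝ)

noncomputable def yy (m t : ℕ) : ℝ := ((m - t : ℕ) : ℝ) / (m : ℝ)

theorem rr_zero {M j : ℕ} (hj : 1 ≤ j) (hM : j ≤ M) : rr M j 0 = (j : ℝ) / M := by
  obtain ⟨j', rfl⟩ : ∃ j', j = j' + 1 := ⟨j - 1, by omega⟩
  obtain ⟨m, rfl⟩ : ∃ m, M = m + 1 := ⟨M - 1, by omega⟩
  unfold rr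
  have h := Nat.add_one_mul_choose_eq m j'
  have hp : 0 < (m + 1).choose (j' + 1) := Nat.choose_pos hM
  simp only [zero_add, Nat.add_sub_cancel]
  rw [div_eq_div_iff (by positivity) (by positivity)]
  have h' : ((m : ℝ) + 1) * (m.choose j' : ℝ) = ((m + 1).choose (j' + 1) : ℝ) * ((j' : ℝ) + 1) := by
    exact_mod_cast h
  push_cast
  linarith

theorem rr_succ {M j k : ℕ} (hk : k + 2 ≤ M) :
    rr M j (k + 1) = rr M j k * yy (M - (k + 1)) (j - 1) := by
  obtain ⟨m, hm⟩ : ∃ m, M - (k + 1) = m + 1 := ⟨M - (k + 1) - 1, by omega⟩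
  have hm2 : M - (k + 1 + 1) = m := by omega
  unfold rr yy
  rw [hm, hm2]
  have h := Nat.choose_mul_succ_eq m (j - 1)
  have h' : (m.choose (j - 1) : ℝ) * ((m : ℝ) + 1) =
      ((m + 1).choose (j - 1) : ℝ) * ((m + 1 - (j - 1) : ℕ) : ℝ) := by
    exact_mod_cast h
  have h2 : (m.choose (j - 1) : ℝ) =
      ((m + 1).choose (j - 1) : ℝ) * (((m + 1 - (j - 1) : ℕ) : ℝ) / ((m : ℝ) + 1)) := by
    rw [← mul_div_assoc, eq_div_iff (by positivity)]
    exact h'
  rw [h2]
  push_cast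
  ring

theorem yy_diff {m t e : ℕ} (he : 1 ≤ e) (ht : 1 ≤ t) (hm : e + 1 ≤ m) :
    |yy (m - e) (t - 1) - yy m t| ≤ (e : ℝ) / ((m : ℝ) - e) := by
  unfold yy
  have hme : ((m - e : ℕ) : ℝ) = (m : ℝ) - e := by
    rw [Nat.cast_sub (by omega)]
  have heR : (1 : ℝ) ≤ e := by exact_mod_cast he
  have hmR : (e : ℝ) + 1 ≤ m := by exact_mod_cast hm
  have htR : (1 : ℝ) ≤ t := by exact_mod_cast ht
  have hp : (0 : ℝ) < (m : ℝ) - e := by linarith
  have hm0 : (0 : ℝ) < m := by linarith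
  rw [hme]
  by_cases h1 : m < t
  · have e1 : m - t = 0 := by omega
    have e2 : m - e - (t - 1) = 0 := by omega
    rw [e1, e2]
    simp only [Nat.cast_zero, zero_div, sub_zero, abs_zero]
    positivity
  · have h1' : t ≤ m := by omega
    have e1 : ((m - t : ℕ) : ℝ) = (m : ℝ) - t := by rw [Nat.cast_sub h1']
    have h1R : (t : ℝ) ≤ m := by exact_mod_cast h1'
    rw [e1]
    by_cases h2 : t - 1 ≤ m - e
    · have e2 : ((m - e - (t - 1) : ℕ) : ℝ) = (m : ℝ) - e - (t - 1) := by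
        rw [Nat.cast_sub h2, hme, Nat.cast_sub ht]
        simp
      rw [e2, div_sub_div _ _ hp.ne' hm0.ne', abs_div, abs_of_pos (mul_pos hp hm0),
        div_le_div_iff₀ (mul_pos hp hm0) hp]
      have h3 : |((m : ℝ) - e - (t - 1)) * m - (m - e) * (m - t)| ≤ e * m := by
        rw [abs_le]
        constructor
        · nlinarith
        · nlinarith
      nlinarith
    · have e2 : m - e - (t - 1) = 0 := by omega
      rw [e2]
      simp only [Nat.cast_zero, zero_div, zero_sub, abs_neg]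
      rw [abs_of_nonneg (div_nonneg (by linarith) hm0.le), div_le_div_iff₀ hm0 hp]
      have h3 : m - e + 1 ≤ t - 1 + 0 := by omega
      have h4 : m + 2 ≤ t + e := by omega
      have h4R : (m : ℝ) + 2 ≤ t + e := by exact_mod_cast h4
      nlinarith

theorem yy_nonneg (m t : ℕ) : 0 ≤ yy m t := by
  unfold yy; positivity

theorem yy_le {m t : ℕ} (h : 2 * m ≤ 5 * t) : yy m t ≤ 3 / 5 := by
  unfold yy
  rcases Nat.eq_zero_or_pos m with rfl | hm
  · simp; norm_num
  · have hm0 : (0 : ℝ) < m := by exact_mod_cast hm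
    rw [div_le_div_iff₀ hm0 (by norm_num)]
    have h1 : (m - t) * 5 ≤ 3 * m := by omega
    exact_mod_cast h1

theorem rr_nonneg (M j k : ℕ) : 0 ≤ rr M j k := by
  unfold rr; positivity

theorem rr_le {M j : ℕ} (hj : 1 ≤ j) (hM : j ≤ M) (h : 2 * M ≤ 5 * (j - 1)) (k : ℕ)
    (hk : k + 1 ≤ M) : rr M j k ≤ (3 / 5 : ℝ) ^ k := by
  induction k with
  | zero =>
    rw [rr_zero hj hM, pow_zero]
    have hM0 : (0 : ℝ) < M := by exact_mod_cast (by omega : 0 < M)
    rw [div_le_one hM0]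
    exact_mod_cast hM
  | succ k ih =>
    rw [rr_succ (by omega), pow_succ]
    exact mul_le_mul (ih (by omega)) (yy_le (by omega)) (yy_nonneg _ _) (by positivity)

theorem rr_diff {N M j e : ℕ} (hMN : M ≤ N) (hj : 19 * N ≤ 40 * j) (hN : 1000 ≤ N)
    (hje : j - 1 ≤ M - e) (hjM : j ≤ M) (he : 1 ≤ e) (k : ℕ) (hk : e + (k + 1) ≤ M)
    (hkN : 10 * (k + 1) < N) :
    |rr (M - e) (j - 1) k - rr M j k| ≤ 5 * e / N * (k + 1) * (3 / 5 : ℝ) ^ k := by
  have hN0 : (0 : ℝ) < N := by exact_mod_cast (by omega : 0 < N)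
  have heR : (1 : ℝ) ≤ e := by exact_mod_cast he
  induction k with
  | zero =>
    rw [rr_zero (by omega) hje, rr_zero (by omega) hjM]
    have hM0 : (0 : ℝ) < M := by exact_mod_cast (by omega : 0 < M)
    have e1 : ((M - e : ℕ) : ℝ) = (M : ℝ) - e := by rw [Nat.cast_sub (by omega)]
    have e2 : ((j - 1 : ℕ) : ℝ) = (j : ℝ) - 1 := by rw [Nat.cast_sub (by omega)]; simp
    have h3 : N ≤ 3 * (M - e) := by omega
    have h3R : (N : ℝ) ≤ 3 * ((M : ℝ) - e) := by
      rw [← e1]; exact_mod_cast h3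
    have hp : (0 : ℝ) < (M : ℝ) - e := by linarith
    have hjR : (j : ℝ) ≤ M := by exact_mod_cast hjM
    have hj0 : (0 : ℝ) ≤ j := by positivity
    rw [e1, e2, div_sub_div _ _ hp.ne' hM0.ne', abs_div, abs_of_pos (mul_pos hp hM0)]
    have h4 : |((j : ℝ) - 1) * M - (M - e) * j| ≤ e * M := by
      rw [abs_le]
      constructor
      · nlinarith
      · nlinarith
    have h5 : |((j : ℝ) - 1) * M - (M - e) * j| / (((M : ℝ) - e) * M) ≤ e / ((M : ℝ) - e) := by
      rw [div_le_div_iff₀ (mul_pos hp hM0) hp]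
      nlinarith
    refine h5.trans ?_
    rw [pow_zero, mul_one]
    push_cast
    rw [zero_add, mul_one, div_le_div_iff₀ hp hN0]
    nlinarith
  | succ k ih =>
    have ih' := ih (by omega) (by omega)
    rw [rr_succ (by omega), rr_succ (by omega)]
    have hmm : M - e - (k + 1) = M - (k + 1) - e := by omega
    rw [hmm]
    have hy := yy_diff (m := M - (k + 1)) (t := j - 1) (e := e) he (by omega) (by omega)
    have e1 : ((M - (k + 1) : ℕ) : ℝ) = (M : ℝ) - (k + 1) := by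
      rw [Nat.cast_sub (by omega)]; push_cast; ring
    have h3 : N + 3 * e + 3 * (k + 1) ≤ 3 * M := by omega
    have h3R : (N : ℝ) + 3 * e + 3 * (k + 1) ≤ 3 * M := by exact_mod_cast h3
    have hy2 : |yy (M - (k + 1) - e) (j - 1 - 1) - yy (M - (k + 1)) (j - 1)| ≤ 3 * e / N := by
      refine hy.trans ?_
      rw [e1, div_le_div_iff₀ (by linarith) hN0]
      nlinarith
    have hr := rr_le (M := M) (j := j) (by omega) hjM (by omega) k (by omega)
    have hr0 := rr_nonneg M j k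
    have hy' := yy_le (m := M - (k + 1) - e) (t := j - 1 - 1) (by omega)
    have hy0 := yy_nonneg (M - (k + 1) - e) (j - 1 - 1)
    set R := rr M j k
    set R' := rr (M - e) (j - 1) k
    set y := yy (M - (k + 1)) (j - 1)
    set y' := yy (M - (k + 1) - e) (j - 1 - 1)
    have h6 : R' * y' - R * y = (R' - R) * y' + R * (y' - y) := by ring
    rw [h6]
    have h7 : |(R' - R) * y' + R * (y' - y)| ≤ |R' - R| * y' + R * |y' - y| := by
      refine (abs_add_le _ _).trans ?_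
      rw [abs_mul, abs_mul, abs_of_nonneg hy0, abs_of_nonneg hr0]
    refine h7.trans ?_
    have h8 : |R' - R| * y' ≤ (5 * e / N * (k + 1) * (3 / 5 : ℝ) ^ k) * (3 / 5) :=
      mul_le_mul ih' hy' hy0 (by positivity)
    have h9 : R * |y' - y| ≤ (3 / 5 : ℝ) ^ k * (3 * e / N) :=
      mul_le_mul hr hy2 (abs_nonneg _) (by positivity)
    refine (add_le_add h8 h9).trans (le_of_eq ?_)
    push_cast
    ring

theorem t_NB2 : S_NB2 := by
  intro N M j d e hMN hj hN hed hje hjM hd he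
  have hN0 : (0 : ℝ) < N := by exact_mod_cast (by omega : 0 < N)
  have heR : (1 : ℝ) ≤ e := by exact_mod_cast he
  obtain ⟨k, rfl⟩ : ∃ k, d = k + 2 := ⟨d - 2, by omega⟩
  have ea : M - e - (k + 2) = M - e - ((k + 1) + 1) := by omega
  have eb : M - (k + 2) = M - ((k + 1) + 1) := by omega
  have ec : j - 2 = j - 1 - 1 := by omega
  have h1 : ((M - e - (k + 2)).choose (j - 2) : ℝ) / ((M - e).choose (j - 1) : ℝ) =
      rr (M - e) (j - 1) (k + 1) := by
    unfold rr; rw [ea, ec]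
  have h2 : ((M - (k + 2)).choose (j - 1) : ℝ) / (M.choose j : ℝ) = rr M j (k + 1) := by
    unfold rr; rw [eb]
  rw [h1, h2]
  have hk2 : k + 2 - 2 = k := by omega
  rw [hk2]
  have hpow : (0 : ℝ) < (3 / 5 : ℝ) ^ k := by positivity
  have hkR : (0 : ℝ) ≤ k := by positivity
  by_cases hc : 10 * (k + 1 + 1) < N
  · have h := rr_diff hMN hj hN hje hjM he (k + 1) (by omega) hc
    refine h.trans ?_
    rw [pow_succ]
    push_cast
    rw [le_div_iff₀ hN0]
    have h3 : 5 * (e : ℝ) / N * ((k : ℝ) + 1 + 1) * ((3 / 5 : ℝ) ^ k * (3 / 5)) * N =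
        3 * e * (k + 2) * (3 / 5 : ℝ) ^ k := by
      field_simp
      ring
    rw [h3]
    have h4 : 3 * (e : ℝ) * (k + 2) ≤ 10 * (k + 2) * (e + 1) := by nlinarith
    calc 3 * (e : ℝ) * (k + 2) * (3 / 5 : ℝ) ^ k ≤ (10 * (k + 2) * (e + 1)) * (3 / 5 : ℝ) ^ k :=
          mul_le_mul_of_nonneg_right h4 hpow.le
      _ = _ := by ring
  · have h1 := rr_le (M := M) (j := j) (by omega) hjM (by omega) (k + 1) (by omega)
    have h2 := rr_le (M := M - e) (j := j - 1) (by omega) hje (by omega) (k + 1) (by omega)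
    have h3 := rr_nonneg M j (k + 1)
    have h4 := rr_nonneg (M - e) (j - 1) (k + 1)
    have h5 : |rr (M - e) (j - 1) (k + 1) - rr M j (k + 1)| ≤ (3 / 5 : ℝ) ^ (k + 1) := by
      rw [abs_le]
      constructor <;> linarith
    refine h5.trans ?_
    rw [le_div_iff₀ hN0, pow_succ]
    have hc' : N ≤ 10 * (k + 2) := by omega
    have hcR : (N : ℝ) ≤ 10 * ((k : ℝ) + 2) := by exact_mod_cast hc'
    push_cast
    have h6 : (3 / 5 : ℝ) * N ≤ 10 * ((k : ℝ) + 2) * (e + 1) := by nlinarith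
    calc (3 / 5 : ℝ) ^ k * (3 / 5) * N = ((3 / 5 : ℝ) * N) * (3 / 5 : ℝ) ^ k := by ring
      _ ≤ (10 * ((k : ℝ) + 2) * (e + 1)) * (3 / 5 : ℝ) ^ k :=
          mul_le_mul_of_nonneg_right h6 hpow.le
      _ = _ := by ring

end Pool.Agent.H87.IS
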